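import Pool.Agent.T9h75.NA.Conc
import Pool.Agent.T9h73.PP.Segre

/-!
# MP_954e53_ag.NegativeAnswer, piece (8), final form: `S` and `Q` are free over `K[θ]`
-/

namespace Pool.Agent.T9h75.NA

open Pool.Agent.T9h29.NA

universe u

variable {K : Type u} [Field K]

/-- `S` (the weights `wG`). -/
theorem free_wG (M : ∀ b, Matrix (Fin (rk b)) (Crd b) K) (hM : ∀ b, AllMinors (M b))
    [GradedAlgebra (grS M wG)] : FreeConcl (grS M wG) 1745 True :=
  freeConcl_wG M hM (Pool.Agent.T9h73.PP.segreData K fun b => 2 * rk b)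

/-- `Q` (all weights `0`). -/
theorem free_zero {A : Type*} [AddCommGroup A]
    (M : ∀ b, Matrix (Fin (rk b)) (Crd b) K) (hM : ∀ b, AllMinors (M b))
    [GradedAlgebra (grS M (0 : Var Crd → A))] : FreeConcl (grS M (0 : Var Crd → A)) 1745 False :=
  freeConcl_zero M hM (Pool.Agent.T9h73.PP.segreData K fun b => 2 * rk b)

end Pool.Agent.T9h75.NA
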