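import Pool.Agent.T9h75.NA.Free
import Pool.Agent.T9h31.NA.Graded
import Pool.Agent.T9h19.NA.Supported

/-!
# MP_954e53_ag.NegativeAnswer, piece (8): the concrete rings are free over `K[θ]`
-/

set_option linter.unusedSectionVars false

namespace Pool.Agent.T9h75.NA

open MvPolynomial Pool.Agent.T9h29.NA

universe u

/-- The normal form, from `T9h31`. -/
theorem normalForm {K : Type u} [Field K] {B : Type} [Fintype B] [DecidableEq B] {ι : B → Type}
    [∀ b, Fintype (ι b)] [∀ b, DecidableEq (ι b)] {A : Type*} [AddCommGroup A] {r e : B → ℕ}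
    (w : Var ι → A) (hw : ∀ v, 3 • w v = 0) (M : ∀ b, Matrix (Fin (r b)) (ι b) K)
    (Sp : ∀ b, Split (e := e b) (M b)) : NormalForm w M Sp :=
  ⟨Pool.Agent.T9h31.NA.free_P M Sp, fun n p => Pool.Agent.T9h31.NA.mem_Sn_iff w hw M Sp n p⟩

section general

variable {K : Type u} [Field K] {B : Type} [Fintype B] [DecidableEq B] [Nonempty B] {ι : B → Type}
  [∀ b, Fintype (ι b)] [∀ b, DecidableEq (ι b)] {A : Type*} [AddCommGroup A] {r : B → ℕ}

/-- The conclusion of the freeness theorem: `𝒜` is free over a polynomial ring in `d` variables of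
degree `3`, with homogeneous basis of symmetric degrees, with exactly one basis element of degree
`3 d - 1`. -/
def FreeConcl {S : Type*} [CommRing S] [Algebra K S] (𝒜 : ℕ → Submodule K S) (d : ℕ) (P : Prop) :
    Prop :=
  ∃ (θ : Fin d → S) (m : ℕ) (b : Fin m → S) (deg : Fin m → ℕ),
      (∀ l, θ l ∈ 𝒜 3) ∧ (∀ i, b i ∈ 𝒜 (deg i)) ∧
      IsFreeBasis K θ b ∧
      (∀ i, deg i + 1 ≤ 3 * d) ∧
      (∃! i, deg i + 1 = 3 * d) ∧
      (P → ∀ i, deg i + 2 ≠ 3 * d) ∧
      (∀ j, j + 1 ≤ 3 * d →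
        (Finset.univ.filter fun i => deg i = j).card =
          (Finset.univ.filter fun i => deg i + 1 + j = 3 * d).card)

theorem freeConcl (w : Var ι → A) (hw : ∀ v, 3 • w v = 0)
    (M : ∀ b, Matrix (Fin (r b)) (ι b) K) (hM : ∀ b, AllMinors (M b))
    (hc : ∀ b, Fintype.card (ι b) = 3 * r b + 1)
    (hsum : ∀ b, ∑ c, w ⟨b, c⟩ = 0) (sd : SegreData K fun b => 2 * r b)
    [GradedAlgebra (grS M w)] {d : ℕ} (hd : ∑ b, 2 * r b + 1 = d) :
    FreeConcl (grS M w) d (Good w 1 = ∅) := by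
  have hSp : ∀ b, Nonempty (Split (e := 2 * r b) (M b)) := fun b =>
    Pool.Agent.T9h31.NA.exists_split (M b) (hM b) (by rw [hc b]; ring)
  let Sp : ∀ b, Split (e := 2 * r b) (M b) := fun b => (hSp b).some
  obtain ⟨m, b, deg, h1, h2, h3, h4, h5, h6, h7⟩ :=
    free_S (normalForm w hw M Sp) sd hc (fun _ => rfl) hsum
  have key : FreeConcl (grS M w) (∑ b, 2 * r b + 1) (Good w 1 = ∅) :=
    ⟨thetaS (normalForm w hw M Sp), m, b, deg, h1, h2, h3, h4, h5, h6, h7⟩
  rw [hd] at key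
  exact key

end general

section concrete

variable {K : Type u} [Field K]

theorem sum_rk : ∑ b, 2 * rk b + 1 = 1745 := by
  simp [Fintype.sum_prod_type, rk]

theorem sum_wG (b : Blk) : ∑ c : Crd b, wG ⟨b, c⟩ = 0 := by
  funext g
  rw [Finset.sum_apply]
  exact Pool.Agent.T9h19.NA.sum_chi g b

/-- `S` (the weights `wG`). -/
theorem freeConcl_wG (M : ∀ b, Matrix (Fin (rk b)) (Crd b) K) (hM : ∀ b, AllMinors (M b))
    (sd : SegreData K fun b => 2 * rk b) [GradedAlgebra (grS M wG)] :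
    FreeConcl (grS M wG) 1745 True := by
  obtain ⟨θ, m, b, deg, h1, h2, h3, h4, h5, h6, h7⟩ :=
    freeConcl wG Pool.Agent.T9h19.NA.wG_three M hM Pool.Agent.T9h19.NA.card_Crd sum_wG sd sum_rk
  exact ⟨θ, m, b, deg, h1, h2, h3, h4, h5, fun _ => h6 Pool.Agent.T9h19.NA.good_one, h7⟩

/-- `Q` (all weights `0`). -/
theorem freeConcl_zero {A : Type*} [AddCommGroup A]
    (M : ∀ b, Matrix (Fin (rk b)) (Crd b) K) (hM : ∀ b, AllMinors (M b))
    (sd : SegreData K fun b => 2 * rk b) [GradedAlgebra (grS M (0 : Var Crd → A))] :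
    FreeConcl (grS M (0 : Var Crd → A)) 1745 False := by
  obtain ⟨θ, m, b, deg, h1, h2, h3, h4, h5, h6, h7⟩ :=
    freeConcl (0 : Var Crd → A) (by simp) M hM Pool.Agent.T9h19.NA.card_Crd (by simp) sd sum_rk
  exact ⟨θ, m, b, deg, h1, h2, h3, h4, h5, fun h => h.elim, h7⟩

end concrete

end Pool.Agent.T9h75.NA
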