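import Pool.Agent.T9h29.NA.Iface

/-!
# MP_954e53_ag.NegativeAnswer, piece (8): `S` is free over `K[θ]`

Input: the Segre modules (structure `SegreData`), the normal form of `R` over `P` and the
description of `S_n` in terms of it. Output: `S` is free over `K[θ_0..θ_D]` with a homogeneous basis
whose degrees are symmetric with respect to `j ↦ 3 D + 2 - j`.
-/

set_option linter.unusedSectionVars false

namespace Pool.Agent.T9h75.NA

open MvPolynomial Pool.Agent.T9h29.NA

universe u

section theta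

variable {K : Type u} [Field K] {B : Type} {e : B → ℕ}

open scoped Pointwise in
theorem rs_mul {σ : Type*} {s t u : Set (σ →₀ ℕ)} (h : ∀ x ∈ s, ∀ y ∈ t, x + y ∈ u)
    {f g : MvPolynomial σ K} (hf : f ∈ restrictSupport K s) (hg : g ∈ restrictSupport K t) :
    f * g ∈ restrictSupport K u := by
  have : f * g ∈ restrictSupport K (s + t) := by
    rw [restrictSupport_add]; exact Submodule.mul_mem_mul hf hg
  exact restrictSupport_mono (R := K) (Set.add_subset_iff.mpr h) this

theorem coeff_prod_mem [DecidableEq B] (T : Finset B) (l : ℕ) :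
    (∏ b ∈ T, ∑ j : Fin (e b + 1),
      Polynomial.C (X ⟨b, j⟩ : Pg K e) * Polynomial.X ^ (j : ℕ)).coeff l ∈
      restrictSupport K {m | ∀ b, (∑ j, m ⟨b, j⟩) = if b ∈ T then 1 else 0} := by
  induction T using Finset.induction_on generalizing l with
  | empty =>
    rw [Finset.prod_empty, Polynomial.coeff_one]
    split_ifs with h
    · have : (1 : Pg K e) = monomial 0 1 := rfl
      rw [this, monomial_mem_restrictSupport]
      left
      intro b
      simp
    · exact Submodule.zero_mem _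
  | insert b T hb ih =>
    rw [Finset.prod_insert hb, Finset.sum_mul, Polynomial.finsetSum_coeff]
    refine Submodule.sum_mem _ fun j _ => ?_
    rw [mul_assoc, Polynomial.coeff_C_mul, Polynomial.coeff_X_pow_mul']
    split_ifs with h
    · refine rs_mul (s := {Finsupp.single ⟨b, j⟩ 1}) ?_ ?_ (ih _)
      · rintro x rfl y hy b'
        simp only [Finsupp.add_apply, Finset.sum_add_distrib]
        rw [hy b']
        by_cases hbb : b' = b
        · subst hbb
          rw [Finset.sum_eq_single j]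
          · simp [hb]
          · intro j' _ hj'
            rw [Finsupp.single_apply, if_neg]
            intro hh; exact hj' (by simpa using (Sigma.mk.inj hh).2.symm)
          · simp
        · rw [Finset.sum_eq_zero]
          · simp [hbb]
          · intro j' _
            rw [Finsupp.single_apply, if_neg]
            intro hh; exact hbb (Sigma.mk.inj hh).1.symm
      · rw [X, monomial_mem_restrictSupport]; left; rfl
    · rw [mul_zero]; exact Submodule.zero_mem _

theorem theta_mem [Fintype B] [DecidableEq B] (l : ℕ) :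
    theta K e l ∈ restrictSupport K {m | ∀ b, (∑ j, m ⟨b, j⟩) = 1} := by
  have := coeff_prod_mem (K := K) (e := e) Finset.univ l
  simpa [theta] using this

end theta

/-- The Segre modules `M(s)`, `0 ≤ s_b ≤ e_b`, are free over `K[θ]`: the generators `p s i` of level
`k s i`, with the symmetry of the levels of `s` and `e - s`. -/
structure SegreData (K : Type u) [Field K] {B : Type} [Fintype B] [DecidableEq B]
    (e : B → ℕ) where
  m : (B → ℕ) → ℕ
  k : ∀ s, Fin (m s) → ℕ
  p : ∀ s, Fin (m s) → Pg K e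
  hp : ∀ s : B → ℕ, (∀ b, s b ≤ e b) → ∀ i,
    p s i ∈ restrictSupport K {m | ∀ b, (∑ j, m ⟨b, j⟩) + s b = k s i}
  hk : ∀ s : B → ℕ, (∀ b, s b ≤ e b) → ∀ i, k s i ≤ ∑ b, e b
  top : ∀ s : B → ℕ, (∀ b, s b ≤ e b) →
    (Finset.univ.filter fun i => k s i = ∑ b, e b).card = if s = e then 1 else 0
  symm : ∀ s : B → ℕ, (∀ b, s b ≤ e b) → ∀ g, g ≤ ∑ b, e b →
    (Finset.univ.filter fun i => k s i = g).card =
      (Finset.univ.filter fun i => k (fun b => e b - s b) i = ∑ b, e b - g).card
  free : ∀ s : B → ℕ, (∀ b, s b ≤ e b) → ∀ f : Pg K e,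
    f ∈ restrictSupport K {m | ∃ n, ∀ b, (∑ j, m ⟨b, j⟩) + s b = n} →
    ∃! c : Fin (m s) → MvPolynomial (Fin (∑ b, e b + 1)) K,
      f = ∑ i, aeval (fun l : Fin (∑ b, e b + 1) => theta K e (l : ℕ)) (c i) * p s i

section combinatorics

variable {B : Type} [Fintype B] [DecidableEq B] {ι : B → Type}
  [∀ b, Fintype (ι b)] [∀ b, DecidableEq (ι b)] {A : Type*} [AddCommGroup A]

/-- The exponents `a ∈ {0,1,2}^V` which occur in `S`. -/
def GoodA (w : Var ι → A) (a : Var ι → Fin 3) : Prop :=
  awgt w a = 0 ∧ ∃ ρ, ∀ b, adeg a b % 3 = ρ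

/-- The common residue of the block degrees. -/
noncomputable def rho [Nonempty B] (a : Var ι → Fin 3) : ℕ := adeg a (Classical.arbitrary B) % 3

theorem rho_lt [Nonempty B] (a : Var ι → Fin 3) : rho a < 3 := Nat.mod_lt _ (by norm_num)

/-- The shifts. -/
def sa (a : Var ι → Fin 3) (b : B) : ℕ := adeg a b / 3

theorem adeg_eq [Nonempty B] {w : Var ι → A} {a : Var ι → Fin 3} (h : GoodA w a) (b : B) :
    adeg a b = 3 * sa a b + rho a := by
  obtain ⟨_, ρ, hρ⟩ := h
  have h1 := hρ b
  have h2 := hρ (Classical.arbitrary B)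
  unfold sa rho
  rw [h2, ← h1]
  omega

theorem adeg_le (a : Var ι → Fin 3) (b : B) : adeg a b ≤ 2 * Fintype.card (ι b) := by
  unfold adeg
  calc ∑ c, (a ⟨b, c⟩ : ℕ) ≤ ∑ _c : ι b, 2 := Finset.sum_le_sum fun c _ => by omega
    _ = 2 * Fintype.card (ι b) := by simp [mul_comm]

/-- The dual exponent `2 - a`. -/
def dual (a : Var ι → Fin 3) : Var ι → Fin 3 := fun v => Fin.rev (a v)

theorem dual_val (a : Var ι → Fin 3) (v : Var ι) : ((dual a v : Fin 3) : ℕ) = 2 - (a v : ℕ) := by
  unfold dual; rw [Fin.val_rev]; omega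

theorem dual_dual (a : Var ι → Fin 3) : dual (dual a) = a := by
  funext v; simp [dual]

theorem adeg_dual (a : Var ι → Fin 3) (b : B) :
    adeg (dual a) b + adeg a b = 2 * Fintype.card (ι b) := by
  unfold adeg
  rw [← Finset.sum_add_distrib]
  have : ∀ c : ι b, ((dual a ⟨b, c⟩ : Fin 3) : ℕ) + (a ⟨b, c⟩ : ℕ) = 2 := by
    intro c; rw [dual_val]; omega
  simp [this, mul_comm]

theorem awgt_dual (w : Var ι → A) (hsum : ∀ b, ∑ c, w ⟨b, c⟩ = 0) (a : Var ι → Fin 3) :
    awgt w (dual a) = - awgt w a := by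
  rw [eq_neg_iff_add_eq_zero]
  unfold awgt
  rw [← Finset.sum_add_distrib]
  have : ∀ v : Var ι, ((dual a v : Fin 3) : ℕ) • w v + (a v : ℕ) • w v = 2 • w v := by
    intro v; rw [← add_smul, dual_val]; congr 1; omega
  simp only [this]
  rw [← Finset.smul_sum, Fintype.sum_sigma]
  simp [hsum]

variable {r e : B → ℕ}

theorem goodA_dual {w : Var ι → A} (hc : ∀ b, Fintype.card (ι b) = 3 * r b + 1)
    (hsum : ∀ b, ∑ c, w ⟨b, c⟩ = 0) {a : Var ι → Fin 3} (h : GoodA w a) : GoodA w (dual a) := by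
  obtain ⟨h1, ρ, hρ⟩ := h
  refine ⟨by rw [awgt_dual w hsum, h1, neg_zero], 2 - ρ, fun b => ?_⟩
  have := adeg_dual a b
  have := hρ b
  have := hc b
  omega

theorem rho_dual [Nonempty B] (hc : ∀ b, Fintype.card (ι b) = 3 * r b + 1) (a : Var ι → Fin 3) :
    rho (dual a) + rho a = 2 := by
  unfold rho
  have := adeg_dual a (Classical.arbitrary B)
  have := hc (Classical.arbitrary B)
  omega

theorem sa_le (hc : ∀ b, Fintype.card (ι b) = 3 * r b + 1) (he : ∀ b, e b = 2 * r b)
    (a : Var ι → Fin 3) (b : B) : sa a b ≤ e b := by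
  have := adeg_le a b
  have := hc b
  have := he b
  unfold sa
  omega

theorem sa_dual (hc : ∀ b, Fintype.card (ι b) = 3 * r b + 1) (he : ∀ b, e b = 2 * r b)
    (a : Var ι → Fin 3) : sa (dual a) = fun b => e b - sa a b := by
  funext b
  have := adeg_dual a b
  have := hc b
  have := he b
  unfold sa
  omega

end combinatorics

section ring

variable {K : Type u} [Field K] {B : Type} [Fintype B] [DecidableEq B] {ι : B → Type}
  [∀ b, Fintype (ι b)] [∀ b, DecidableEq (ι b)] {A : Type*} [AddCommGroup A] {r e : B → ℕ}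

/-- The normal form of `R` over `P` and the description of `S_n`. -/
structure NormalForm (w : Var ι → A) (M : ∀ b, Matrix (Fin (r b)) (ι b) K)
    (Sp : ∀ b, Split (e := e b) (M b)) : Prop where
  free : ∀ x : Rg M, ∃! p : (Var ι → Fin 3) → Pg K e, x = ∑ a, psi M Sp (p a) * Xa M a
  mem : ∀ (n : ℕ) (p : (Var ι → Fin 3) → Pg K e),
    ∑ a, psi M Sp (p a) * Xa M a ∈ Sn M w n ↔
      ∀ a, p a ≠ 0 → awgt w a = 0 ∧
        p a ∈ restrictSupport K {m | ∀ b, 3 * (∑ j, m ⟨b, j⟩) + adeg a b = n}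

variable {w : Var ι → A} {M : ∀ b, Matrix (Fin (r b)) (ι b) K}
  {Sp : ∀ b, Split (e := e b) (M b)}

theorem Sn_le (n : ℕ) {x : Rg M} (hx : x ∈ Sn M w n) : x ∈ Stot M w :=
  Algebra.subset_adjoin (Set.mem_iUnion.mpr ⟨n, hx⟩)

theorem sum_single (a : Var ι → Fin 3) (q : Pg K e) :
    ∑ a', psi M Sp ((Pi.single a q : (Var ι → Fin 3) → Pg K e) a') * Xa M a' =
      psi M Sp q * Xa M a := by
  rw [Finset.sum_eq_single a]
  · simp
  · intro a' _ ha'; rw [Pi.single_eq_of_ne ha']; simp
  · simp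

theorem single_mem (H : NormalForm w M Sp) {a : Var ι → Fin 3} {q : Pg K e} {n : ℕ}
    (ha : awgt w a = 0)
    (hq : q ∈ restrictSupport K {m | ∀ b, 3 * (∑ j, m ⟨b, j⟩) + adeg a b = n}) :
    psi M Sp q * Xa M a ∈ Sn M w n := by
  rw [← sum_single a q, H.mem]
  intro a' ha'
  by_cases h : a' = a
  · subst h; simpa using ⟨ha, hq⟩
  · rw [Pi.single_eq_of_ne h] at ha'; exact absurd rfl ha'

theorem Xa_zero : Xa M (0 : Var ι → Fin 3) = 1 := by
  unfold Xa; simp

theorem adeg_zero (b : B) : adeg (0 : Var ι → Fin 3) b = 0 := by simp [adeg]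

theorem awgt_zero (w : Var ι → A) : awgt w (0 : Var ι → Fin 3) = 0 := by simp [awgt]

theorem psi_theta_mem (H : NormalForm w M Sp) (l : ℕ) :
    psi M Sp (theta K e l) ∈ Sn M w 3 := by
  have := single_mem H (a := 0) (q := theta K e l) (n := 3) (awgt_zero w) ?_
  · rwa [Xa_zero, mul_one] at this
  · refine restrictSupport_mono (R := K) ?_ (theta_mem l)
    intro m hm b
    rw [hm b, adeg_zero]

/-- The parameters `θ_0, …, θ_D` of `S`. -/
noncomputable def thetaS (H : NormalForm w M Sp) (l : Fin (∑ b, e b + 1)) : Stot M w :=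
  ⟨psi M Sp (theta K e (l : ℕ)), Sn_le 3 (psi_theta_mem H l)⟩

theorem thetaS_mem (H : NormalForm w M Sp) (l : Fin (∑ b, e b + 1)) :
    thetaS H l ∈ grS M w 3 := psi_theta_mem H l

theorem coe_aeval_thetaS (H : NormalForm w M Sp)
    (c : MvPolynomial (Fin (∑ b, e b + 1)) K) :
    ((aeval (thetaS H) c : Stot M w) : Rg M) =
      psi M Sp (aeval (fun l : Fin (∑ b, e b + 1) => theta K e (l : ℕ)) c) := by
  have h1 : ((Stot M w).val.comp (aeval (thetaS H))) =
      (psi M Sp).comp (aeval (fun l : Fin (∑ b, e b + 1) => theta K e (l : ℕ))) := by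
    apply MvPolynomial.algHom_ext
    intro l
    simp [thetaS]
  exact DFunLike.congr_fun h1 c

theorem exists_coords [Nonempty B] (H : NormalForm w M Sp) [GradedAlgebra (grS M w)]
    (x : Stot M w) : ∃ p : (Var ι → Fin 3) → Pg K e, (x : Rg M) = ∑ a, psi M Sp (p a) * Xa M a ∧
      (∀ a, ¬ GoodA w a → p a = 0) ∧
      ∀ a, p a ∈ restrictSupport K {m | ∃ n, ∀ b, (∑ j, m ⟨b, j⟩) + sa a b = n} := by
  induction x using DirectSum.Decomposition.inductionOn (ℳ := grS M w) with
  | zero => exact ⟨0, by simp, fun _ _ => rfl, fun _ => Submodule.zero_mem _⟩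
  | @homogeneous n x =>
    obtain ⟨x, hx⟩ := x
    obtain ⟨p, hp, -⟩ := H.free (x : Rg M)
    have hx' : ∑ a, psi M Sp (p a) * Xa M a ∈ Sn M w n := by rw [← hp]; exact hx
    rw [H.mem] at hx'
    refine ⟨p, hp, fun a ha => ?_, fun a => ?_⟩
    · by_contra hpa
      obtain ⟨h1, h2⟩ := hx' a hpa
      obtain ⟨m, hm⟩ := support_nonempty.mpr hpa
      have h3 := h2 hm
      refine ha ⟨h1, n % 3, fun b => ?_⟩
      have := h3 b
      omega
    · by_cases hpa : p a = 0
      · rw [hpa]; exact Submodule.zero_mem _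
      · refine restrictSupport_mono (R := K) ?_ (hx' a hpa).2
        intro m hm
        refine ⟨n / 3, fun b => ?_⟩
        have := hm b
        unfold sa
        omega
  | add x y hx hy =>
    obtain ⟨p, hp, hp1, hp2⟩ := hx
    obtain ⟨q, hq, hq1, hq2⟩ := hy
    refine ⟨p + q, ?_, fun a ha => ?_, fun a => Submodule.add_mem _ (hp2 a) (hq2 a)⟩
    · push_cast
      rw [hp, hq, ← Finset.sum_add_distrib]
      refine Finset.sum_congr rfl fun a _ => ?_
      rw [Pi.add_apply, map_add, add_mul]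
    · rw [Pi.add_apply, hp1 a ha, hq1 a ha, add_zero]

noncomputable instance goodFintype (w : Var ι → A) : Fintype {a : Var ι → Fin 3 // GoodA w a} :=
  Fintype.ofFinite _

/-- The index set of the basis. -/
abbrev Idx (sd : SegreData K e) (w : Var ι → A) : Type :=
  Σ a : {a : Var ι → Fin 3 // GoodA w a}, Fin (sd.m (sa a.1))

/-- The degrees of the basis. -/
noncomputable def degS [Nonempty B] (sd : SegreData K e) (w : Var ι → A) (i : Idx sd w) : ℕ :=
  3 * sd.k (sa i.1.1) i.2 + rho i.1.1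

theorem basis_mem [Nonempty B] (H : NormalForm w M Sp) (sd : SegreData K e)
    (hc : ∀ b, Fintype.card (ι b) = 3 * r b + 1) (he : ∀ b, e b = 2 * r b) (i : Idx sd w) :
    psi M Sp (sd.p (sa i.1.1) i.2) * Xa M i.1.1 ∈ Sn M w (degS sd w i) := by
  refine single_mem H i.1.2.1 ?_
  refine restrictSupport_mono (R := K) ?_ (sd.hp (sa i.1.1) (sa_le hc he _) i.2)
  intro m hm b
  have h1 := hm b
  have h2 := adeg_eq i.1.2 b
  unfold degS
  omega

/-- The basis of `S` over `K[θ]`. -/
noncomputable def bS [Nonempty B] (H : NormalForm w M Sp) (sd : SegreData K e)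
    (hc : ∀ b, Fintype.card (ι b) = 3 * r b + 1) (he : ∀ b, e b = 2 * r b) (i : Idx sd w) :
    Stot M w := ⟨psi M Sp (sd.p (sa i.1.1) i.2) * Xa M i.1.1, Sn_le _ (basis_mem H sd hc he i)⟩

theorem bS_mem [Nonempty B] (H : NormalForm w M Sp) (sd : SegreData K e)
    (hc : ∀ b, Fintype.card (ι b) = 3 * r b + 1) (he : ∀ b, e b = 2 * r b) (i : Idx sd w) :
    bS H sd hc he i ∈ grS M w (degS sd w i) := basis_mem H sd hc he i

/-- The element of `R` with given coordinates over `K[θ]`. -/
theorem coe_sum [Nonempty B] (H : NormalForm w M Sp) (sd : SegreData K e)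
    (hc : ∀ b, Fintype.card (ι b) = 3 * r b + 1) (he : ∀ b, e b = 2 * r b)
    (c : Idx sd w → MvPolynomial (Fin (∑ b, e b + 1)) K) :
    ((∑ i, aeval (thetaS H) (c i) * bS H sd hc he i : Stot M w) : Rg M) =
      ∑ a : {a : Var ι → Fin 3 // GoodA w a},
        psi M Sp (∑ i, aeval (fun l : Fin (∑ b, e b + 1) => theta K e (l : ℕ)) (c ⟨a, i⟩) *
          sd.p (sa a.1) i) * Xa M a.1 := by
  rw [Fintype.sum_sigma]
  simp only [AddSubmonoidClass.coe_finsetSum, map_sum, Finset.sum_mul]
  refine Finset.sum_congr rfl fun a _ => Finset.sum_congr rfl fun i _ => ?_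
  rw [MulMemClass.coe_mul, coe_aeval_thetaS, map_mul]
  simp only [bS, mul_assoc]

theorem sum_good (p : (Var ι → Fin 3) → Pg K e) (hp : ∀ a, ¬ GoodA w a → p a = 0) :
    ∑ a, psi M Sp (p a) * Xa M a =
      ∑ a : {a : Var ι → Fin 3 // GoodA w a}, psi M Sp (p a.1) * Xa M a.1 := by
  classical
  rw [← Finset.sum_filter_of_ne (p := fun a => GoodA w a)]
  · exact Finset.sum_subtype _ (by simp) _
  · intro a _ ha
    by_contra h
    exact ha (by rw [hp a h]; simp)

theorem isFreeBasis_bS [Nonempty B] (H : NormalForm w M Sp) [GradedAlgebra (grS M w)]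
    (sd : SegreData K e)
    (hc : ∀ b, Fintype.card (ι b) = 3 * r b + 1) (he : ∀ b, e b = 2 * r b) :
    IsFreeBasis K (thetaS H) (bS H sd hc he) := by
  intro x
  obtain ⟨p, hp, hp1, hp2⟩ := exists_coords H x
  have key : ∀ a : {a : Var ι → Fin 3 // GoodA w a}, _ := fun a =>
    sd.free (sa a.1) (sa_le hc he a.1) (p a.1) (hp2 a.1)
  choose c hc1 hc2 using key
  refine ⟨fun i => c i.1 i.2, ?_, ?_⟩
  · apply Subtype.ext
    rw [coe_sum, hp, sum_good p hp1]
    refine Finset.sum_congr rfl fun a _ => ?_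
    rw [← hc1 a]
  · intro c' hc'
    classical
    have h1 : (x : Rg M) = _ := congrArg Subtype.val hc'
    rw [coe_sum] at h1
    let p' : (Var ι → Fin 3) → Pg K e := fun a => if h : GoodA w a then
      ∑ i, aeval (fun l : Fin (∑ b, e b + 1) => theta K e (l : ℕ)) (c' ⟨⟨a, h⟩, i⟩) *
        sd.p (sa a) i else 0
    have h2 : (x : Rg M) = ∑ a, psi M Sp (p' a) * Xa M a := by
      rw [h1, sum_good p' (fun a ha => dif_neg ha)]
      refine Finset.sum_congr rfl fun a _ => ?_
      simp only [p']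
      rw [dif_pos a.2]
    have h3 : p' = p := (H.free (x : Rg M)).unique h2 hp
    funext i
    obtain ⟨a, i⟩ := i
    have h4 : p a.1 = ∑ i, aeval (fun l : Fin (∑ b, e b + 1) => theta K e (l : ℕ)) (c' ⟨a, i⟩) *
        sd.p (sa a.1) i := by
      rw [← h3]; simp only [p']; rw [dif_pos a.2]
    exact congrFun (hc2 a (fun i => c' ⟨a, i⟩) h4) i

/-! ### The degrees -/

theorem degS_le [Nonempty B] (sd : SegreData K e) (w : Var ι → A)
    (hc : ∀ b, Fintype.card (ι b) = 3 * r b + 1) (he : ∀ b, e b = 2 * r b) (i : Idx sd w) :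
    degS sd w i + 1 ≤ 3 * (∑ b, e b + 1) := by
  have h1 := sd.hk (sa i.1.1) (sa_le hc he _) i.2
  have h2 := rho_lt i.1.1
  unfold degS
  omega

theorem eq_two_of_adeg {a : Var ι → Fin 3} (h : ∀ b, adeg a b = 2 * Fintype.card (ι b)) :
    a = fun _ => 2 := by
  have h0 : ∀ b, adeg (dual a) b = 0 := fun b => by have := adeg_dual a b; have := h b; omega
  funext v
  have h1 := h0 v.1
  unfold adeg at h1
  rw [Finset.sum_eq_zero_iff] at h1
  have h2 := h1 v.2 (Finset.mem_univ _)
  rw [dual_val] at h2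
  have h3 : 2 ≤ (a v : ℕ) := by
    have : (⟨v.1, v.2⟩ : Var ι) = v := rfl
    rw [this] at h2; omega
  apply Fin.ext
  have := (a v).isLt
  change (a v : ℕ) = 2
  omega

theorem degS_ne [Nonempty B] (sd : SegreData K e) (w : Var ι → A)
    (hc : ∀ b, Fintype.card (ι b) = 3 * r b + 1) (he : ∀ b, e b = 2 * r b)
    (hsum : ∀ b, ∑ c, w ⟨b, c⟩ = 0) (h1 : Good w 1 = ∅) (i : Idx sd w) :
    degS sd w i + 2 ≠ 3 * (∑ b, e b + 1) := by
  intro h
  obtain ⟨⟨a, ha⟩, i⟩ := i
  have h2 := sd.hk (sa a) (sa_le hc he _) i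
  have h3 := rho_lt a
  unfold degS at h
  simp only at h
  have h4 : sd.k (sa a) i = ∑ b, e b := by omega
  have h5 : rho a = 1 := by omega
  have h6 := sd.top (sa a) (sa_le hc he _)
  have h7 : sa a = e := by
    by_contra h8
    rw [if_neg h8, Finset.card_eq_zero] at h6
    have : i ∈ (Finset.univ.filter fun i => sd.k (sa a) i = ∑ b, e b) := by simp [h4]
    rw [h6] at this
    exact absurd this (Finset.notMem_empty _)
  have h8 : ∀ b, adeg a b = 3 * e b + 1 := fun b => by rw [adeg_eq ha b, h5, h7]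
  have h9 : ∀ b, adeg (dual a) b = 1 := fun b => by
    have := adeg_dual a b; have := h8 b; have := hc b; have := he b; omega
  have h10 : awgt w (dual a) = 0 := by rw [awgt_dual w hsum, ha.1, neg_zero]
  have h11 : Finsupp.equivFunOnFinite.symm (fun v => ((dual a v : Fin 3) : ℕ)) ∈ Good w 1 := by
    refine ⟨fun b => ?_, ?_⟩
    · simpa [bdeg, adeg] using h9 b
    · simpa [wgt, awgt] using h10
  rw [h1] at h11
  exact h11

theorem existsUnique_degS [Nonempty B] (sd : SegreData K e) (w : Var ι → A)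
    (hc : ∀ b, Fintype.card (ι b) = 3 * r b + 1) (he : ∀ b, e b = 2 * r b)
    (hsum : ∀ b, ∑ c, w ⟨b, c⟩ = 0) :
    ∃! i : Idx sd w, degS sd w i + 1 = 3 * (∑ b, e b + 1) := by
  have hg : GoodA w (fun _ : Var ι => (2 : Fin 3)) := by
    have : GoodA w (dual (0 : Var ι → Fin 3)) :=
      goodA_dual hc hsum ⟨awgt_zero w, 0, fun b => by rw [adeg_zero]⟩
    exact this
  have had : ∀ b, adeg (fun _ : Var ι => (2 : Fin 3)) b = 3 * e b + 2 := fun b => by
    have h1 := adeg_dual (0 : Var ι → Fin 3) b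
    rw [adeg_zero] at h1
    have h2 : dual (0 : Var ι → Fin 3) = fun _ => 2 := rfl
    rw [h2] at h1
    have := hc b; have := he b
    omega
  have hs : sa (fun _ : Var ι => (2 : Fin 3)) = e := by
    funext b; unfold sa; rw [had b]; omega
  have htop := sd.top (sa fun _ : Var ι => (2 : Fin 3)) (sa_le hc he _)
  rw [if_pos hs, Finset.card_eq_one] at htop
  obtain ⟨i0, hi0⟩ := htop
  have hmem : ∀ i, sd.k (sa fun _ : Var ι => (2 : Fin 3)) i = ∑ b, e b ↔ i = i0 := by
    intro i
    have : i ∈ (Finset.univ.filter fun i => sd.k (sa fun _ : Var ι => (2 : Fin 3)) i = ∑ b, e b)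
        ↔ i ∈ ({i0} : Finset _) := by rw [hi0]
    simpa using this
  refine ⟨⟨⟨_, hg⟩, i0⟩, ?_, ?_⟩
  · have h1 := (hmem i0).2 rfl
    have h2 : rho (fun _ : Var ι => (2 : Fin 3)) = 2 := by unfold rho; rw [had]; omega
    simp only [degS, h1, h2]
    ring
  · rintro ⟨⟨a, ha⟩, i⟩ h
    have h2 := sd.hk (sa a) (sa_le hc he _) i
    have h3 := rho_lt a
    unfold degS at h
    simp only at h
    have h4 : sd.k (sa a) i = ∑ b, e b := by omega
    have h5 : rho a = 2 := by omega
    have h6 := sd.top (sa a) (sa_le hc he _)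
    have h7 : sa a = e := by
      by_contra h8
      rw [if_neg h8, Finset.card_eq_zero] at h6
      have : i ∈ (Finset.univ.filter fun i => sd.k (sa a) i = ∑ b, e b) := by simp [h4]
      rw [h6] at this
      exact absurd this (Finset.notMem_empty _)
    have h8 : a = fun _ => 2 := by
      apply eq_two_of_adeg
      intro b
      rw [adeg_eq ha b, h5, h7, hc b, he b]
      ring
    subst h8
    rw [hmem] at h4
    subst h4
    rfl

theorem card_fiber [Nonempty B] (sd : SegreData K e) (a : Var ι → Fin 3) (j : ℕ) :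
    (Finset.univ.filter fun i => 3 * sd.k (sa a) i + rho a = j).card =
      if j % 3 = rho a then (Finset.univ.filter fun i => sd.k (sa a) i = j / 3).card else 0 := by
  have h3 := rho_lt a
  split_ifs with h
  · congr 1
    ext i
    simp only [Finset.mem_filter, Finset.mem_univ, true_and]
    omega
  · rw [Finset.card_eq_zero, Finset.filter_eq_empty_iff]
    intro i _
    omega

theorem card_degS [Nonempty B] (sd : SegreData K e) (w : Var ι → A) (j : ℕ) :
    (Finset.univ.filter fun i : Idx sd w => degS sd w i = j).card =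
      ∑ a : {a : Var ι → Fin 3 // GoodA w a},
        (Finset.univ.filter fun i => 3 * sd.k (sa a.1) i + rho a.1 = j).card := by
  simp only [Finset.card_filter]
  rw [Fintype.sum_sigma]
  rfl

theorem symm_degS [Nonempty B] (sd : SegreData K e) (w : Var ι → A)
    (hc : ∀ b, Fintype.card (ι b) = 3 * r b + 1) (he : ∀ b, e b = 2 * r b)
    (hsum : ∀ b, ∑ c, w ⟨b, c⟩ = 0) (j : ℕ) (hj : j + 1 ≤ 3 * (∑ b, e b + 1)) :
    (Finset.univ.filter fun i : Idx sd w => degS sd w i = j).card =
      (Finset.univ.filter fun i : Idx sd w =>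
        degS sd w i = 3 * (∑ b, e b + 1) - 1 - j).card := by
  rw [card_degS, card_degS]
  let φ : {a : Var ι → Fin 3 // GoodA w a} ≃ {a : Var ι → Fin 3 // GoodA w a} :=
    { toFun := fun a => ⟨dual a.1, goodA_dual hc hsum a.2⟩
      invFun := fun a => ⟨dual a.1, goodA_dual hc hsum a.2⟩
      left_inv := fun a => Subtype.ext (dual_dual a.1)
      right_inv := fun a => Subtype.ext (dual_dual a.1) }
  refine Fintype.sum_equiv φ _ _ fun a => ?_
  change _ = (Finset.univ.filter fun i => 3 * sd.k (sa (dual a.1)) i + rho (dual a.1) = _).card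
  rw [card_fiber, card_fiber]
  have h1 := rho_dual hc a.1
  have h2 := rho_lt a.1
  have h3 : (3 * (∑ b, e b + 1) - 1 - j) % 3 = rho (dual a.1) ↔ j % 3 = rho a.1 := by omega
  simp only [h3]
  split_ifs with h
  · have h4 : (3 * (∑ b, e b + 1) - 1 - j) / 3 = ∑ b, e b - j / 3 := by omega
    rw [h4, sd.symm (sa a.1) (sa_le hc he _) (j / 3) (by omega), sa_dual hc he]
  · rfl

/-! ### The result -/

/-- **`S` is a finite free module over `K[θ_0..θ_D]`**, `θ_l` of degree `3`, with a homogeneous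
basis with symmetric degrees (symmetric with respect to `j ↦ 3 (D + 1) - 1 - j`), exactly one
generator of degree `3 (D + 1) - 1` and, if no exponent of degree one has weight `0`, none of degree
`3 (D + 1) - 2`. -/
theorem free_S [Nonempty B] (H : NormalForm w M Sp) [GradedAlgebra (grS M w)]
    (sd : SegreData K e)
    (hc : ∀ b, Fintype.card (ι b) = 3 * r b + 1) (he : ∀ b, e b = 2 * r b)
    (hsum : ∀ b, ∑ c, w ⟨b, c⟩ = 0) :
    ∃ (m : ℕ) (b : Fin m → Stot M w) (deg : Fin m → ℕ),
      (∀ l, thetaS H l ∈ grS M w 3) ∧ (∀ i, b i ∈ grS M w (deg i)) ∧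
      IsFreeBasis K (thetaS H) b ∧
      (∀ i, deg i + 1 ≤ 3 * (∑ b, e b + 1)) ∧
      (∃! i, deg i + 1 = 3 * (∑ b, e b + 1)) ∧
      (Good w 1 = ∅ → ∀ i, deg i + 2 ≠ 3 * (∑ b, e b + 1)) ∧
      (∀ j, j + 1 ≤ 3 * (∑ b, e b + 1) →
        (Finset.univ.filter fun i => deg i = j).card =
          (Finset.univ.filter fun i => deg i + 1 + j = 3 * (∑ b, e b + 1)).card) := by
  let φ : Fin (Fintype.card (Idx sd w)) ≃ Idx sd w := (Fintype.equivFin _).symm
  refine ⟨Fintype.card (Idx sd w), fun i => bS H sd hc he (φ i), fun i => degS sd w (φ i),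
    thetaS_mem H, fun i => bS_mem H sd hc he _, ?_, fun i => degS_le sd w hc he _, ?_,
    fun h1 i => degS_ne sd w hc he hsum h1 _, fun j hj => ?_⟩
  · intro x
    obtain ⟨c, hc1, hc2⟩ := isFreeBasis_bS H sd hc he x
    refine ⟨fun i => c (φ i), ?_, fun c' hc' => ?_⟩
    · have h2 := Equiv.sum_comp φ (fun i => aeval (thetaS H) (c i) * bS H sd hc he i)
      exact hc1.trans h2.symm
    · have := hc2 (fun i => c' (φ.symm i)) (by
        change x = _
        change x = _ at hc'
        have h2 := Equiv.sum_comp φ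
          (fun i => aeval (thetaS H) (c' (φ.symm i)) * bS H sd hc he i)
        rw [← h2, hc']
        simp)
      funext i
      simpa using congrFun this (φ i)
  · obtain ⟨i, hi, hi'⟩ := existsUnique_degS sd w hc he hsum
    refine ⟨φ.symm i, by simpa using hi, fun j hj => ?_⟩
    rw [← hi' (φ j) hj]
    simp
  · have := symm_degS sd w hc he hsum j hj
    have key : ∀ j', (Finset.univ.filter fun i => degS sd w (φ i) = j').card =
        (Finset.univ.filter fun i : Idx sd w => degS sd w i = j').card := by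
      intro j'
      simp only [Finset.card_filter]
      exact Equiv.sum_comp φ (fun i => if degS sd w i = j' then 1 else 0)
    have key2 : (Finset.univ.filter fun i => degS sd w (φ i) + 1 + j = 3 * (∑ b, e b + 1)) =
        (Finset.univ.filter fun i => degS sd w (φ i) = 3 * (∑ b, e b + 1) - 1 - j) := by
      ext i
      simp only [Finset.mem_filter, Finset.mem_univ, true_and]
      omega
    rw [key2, key, key]
    exact this

/-! ### Degrees zero and one -/

theorem grS_one (h1 : Good w 1 = ∅) : grS M w 1 = ⊥ := by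
  rw [eq_bot_iff]
  intro x hx
  have hx' : (x : Rg M) ∈ Sn M w 1 := hx
  unfold Sn at hx'
  rw [h1] at hx'
  obtain ⟨f, hf, hfx⟩ := hx'
  have hf0 : f = 0 := by
    have := (mem_restrictSupport_iff (R := K)).1 hf
    rw [Set.subset_empty_iff] at this
    rw [← support_eq_empty]
    exact_mod_cast this
  rw [Submodule.mem_bot]
  apply Subtype.ext
  rw [← hfx, hf0]
  simp

theorem grS_zero (x : Stot M w) (hx : x ∈ grS M w 0) :
    ∃ c : K, algebraMap K (Stot M w) c = x := by
  have hx' : (x : Rg M) ∈ Sn M w 0 := hx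
  obtain ⟨f, hf, hfx⟩ := hx'
  have hf0 : ∀ m ∈ f.support, m = 0 := by
    intro m hm
    have h1 := ((mem_restrictSupport_iff (R := K)).1 hf) hm
    ext ⟨b, c⟩
    have h2 := h1.1 b
    unfold bdeg at h2
    rw [Finset.sum_eq_zero_iff] at h2
    exact h2 c (Finset.mem_univ _)
  have hfC : f = C (coeff 0 f) := by
    ext m
    rw [coeff_C]
    split_ifs with h
    · rw [h]
    · by_contra h2
      exact h (hf0 m (mem_support_iff.mpr h2)).symm
  refine ⟨coeff 0 f, Subtype.ext ?_⟩
  rw [← hfx, hfC]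
  simp

end ring

end Pool.Agent.T9h75.NA
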